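import Pool.Agent.Y63.KR.Dade

/-!
# The alternating sums of Dade's conjecture are iterated `p`-adic limits of surface group counts

Let `G` be a finite group, `p` a prime, `X` the poset of nontrivial `p`-subgroups of `G`, and `Π_g`
the fundamental group of the closed orientable surface of genus `g`. For `n ≥ 0` let

  `f_0(n) = |G|⁻¹ ∑_φ (1 - χ(X^φ(Π_{n+1})))`,  `φ` running over the homomorphisms `Π_{n+1} → G`,
  `f_{d+1}(n) = p^{-2n} (f_d(n) - lim_k f_d(n + (p - 1) p^k))`

with `p`-adic limits. We prove that the limits exist, that all `f_d(n)` are integers, and that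

  `∑_σ (-1)^|σ| k^d(G_σ) = f_d(0) - f_{d+1}(0)`  for all `d ≥ 0`,

where `σ` runs over representatives of the conjugacy classes of chains of nontrivial `p`-subgroups,
the empty chain included, and `k^d(H)` is the number of irreducible characters of `H` of `p`-defect
`d`. If `O_p(G) = 1` the left side for `d ≥ 1` is the sum of Dade's alternating sums over all blocks
of `G` with nontrivial defect groups. So the block-free form of Dade's conjecture for `G` says that
`f_d(0) = 0` for all `d ≥ 1`: it only depends on the numbers of homomorphisms from surface groups onto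
the subgroups of `G`, and on Euler characteristics of posets of `p`-subgroups. The first condition
`f_1(0) = 0`, the `p`-adic continuity of `f_0` at `0`, is the Knörr–Robinson form of Alperin's weight
conjecture.

Idea of the proof: by the formula of Frobenius and Mednykh `f_0(n)` is the alternating sum of
`∑_χ (|G_σ| / χ(1))^(2n)`. The limit picks out the characters `χ` with `|G_σ| / χ(1)` prime to `p`,
so `f_d(n)` is the alternating sum of `∑_χ (|G_σ| / (p^d χ(1)))^(2n)` over the characters of defect at
least `d`.
-/

set_option autoImplicit false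

namespace Pool.Agent.Results.MP_3f89b9_al.DefectsFromSurfaces

open Pool.Agent.Y63.KR Pool.Agent.Y63.AWC

/-- Let `G` be a finite group and `p` a prime. There is exactly one family of integers `f d n` such
that `f 0 n = -χ̃_{n+1}` and such that `f d n - p^(2n) f (d+1) n` is the `p`-adic limit of
`f d (n + (p-1) p^k)` for `k → ∞` (the difference being divisible by `p^(k+1)`). For it:

(1) `∑_σ (-1)^|σ| k^d(G_σ) = f d 0 - f (d+1) 0` for all `d`;

(2) `∑_σ (-1)^|σ| k^d(G_σ) = 0` for all `d ≥ 1` if and only if `f d 0 = 0` for all `d ≥ 1`;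

(3) `f d n = 0` for all `n` if `p^d` does not divide `|G|`, so (2) consists of finitely many
conditions;

(4) `∑_σ (-1)^|σ| k(G_σ) = z_p(G)` if and only if `f 1 0 = 0`. -/
theorem result (p : ℕ) [Fact p.Prime] (G : Type) [Group G] [Finite G] :
    (∃! f : ℕ → ℕ → ℤ, IsSlopeFamily p G f) ∧
    ∀ f : ℕ → ℕ → ℤ, IsSlopeFamily p G f →
      (∀ d : ℕ, alternatingSum p G (fun H => (numDefect p d H : ℤ)) = f d 0 - f (d + 1) 0) ∧
      ((∀ d : ℕ, 1 ≤ d → alternatingSum p G (fun H => (numDefect p d H : ℤ)) = 0) ↔
        ∀ d : ℕ, 1 ≤ d → f d 0 = 0) ∧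
      (∀ d n : ℕ, ¬ p ^ d ∣ Nat.card G → f d n = 0) ∧
      (alternatingSum p G (fun H => (Nat.card (ConjClasses H) : ℤ)) = (numDefectZero p G : ℤ) ↔
        f 1 0 = 0) := by
  refine ⟨⟨_, isSlopeFamily, fun g hg => slopeFamily_unique hg isSlopeFamily⟩, fun f hf =>
    ⟨sum_numDefect hf, dade_iff hf, ?_, ?_⟩⟩
  · intro d n hd
    refine slope_large hf ?_ n
    have hp : p.Prime := Fact.out
    by_contra h
    exact hd ((hp.pow_dvd_iff_le_factorization Nat.card_pos.ne').mpr (by omega))
  · exact kr_iff hf

end Pool.Agent.Results.MP_3f89b9_al.DefectsFromSurfaces
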